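import Pool.Agent.H.MP_927db0_al.A
import Pool.Agent.H.MP_927db0_al.B

namespace Pool.Agent.Results.MP_927db0_al.Finite

/-- `ie G` is the number of `n` such that `G` has a non-normal subgroup of order `n` -/
noncomputable def ie (G : Type) [Group G] : ℕ :=
  Set.ncard {n : ℕ | ∃ H : Subgroup G, Nat.card H = n ∧ ¬ H.Normal}

/-- `k` is a soluble group-theoretic number -/
def SolubleNum (k : ℕ) : Prop :=
  0 < k ∧ ∀ (G : Type) [Group G] [Finite G], ie G = k → Group.IsSolvable G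

/-- `k` is an absolutely simple group-theoretic number -/
def AbsSimpleNum (k : ℕ) : Prop :=
  0 < k ∧ (∃ (G : Type) (_ : Group G) (_ : Finite G), IsSimpleGroup G ∧ ie G = k) ∧
    ¬ ∃ (G : Type) (_ : Group G) (_ : Finite G),
      ¬ Group.IsSolvable G ∧ ¬ IsSimpleGroup G ∧ ie G = k

open Pool.Agent.H.MP_927db0_al

theorem main (k : ℕ) (hk : 84 ≤ k) : ∃ (G : Type) (_ : Group G) (_ : Finite G),
    ¬ Group.IsSolvable G ∧ ¬ IsSimpleGroup G ∧ ie G = k := by
  obtain ⟨m, r, h⟩ : ∃ m r : ℕ, k = 7 * (m + 3 + r + 1) + 2 * (r + 1) :=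
    ⟨(k - 30 - 9 * ((4 * (k - 30)) % 7)) / 7, (4 * (k - 30)) % 7, by omega⟩
  refine ⟨A5 × Q m r, inferInstance, inferInstance, ?_, ?_, ?_⟩
  · intro hs
    exact A5_not_solvable (Group.isSolvable_of_surjective (f := MonoidHom.fst A5 (Q m r))
      (fun s => ⟨(s, 1), rfl⟩))
  · intro hs
    have hc := card_prod' (⊤ : Subgroup A5) (⊥ : Subgroup (Q m r))
    rw [Subgroup.card_top, cardA5, Subgroup.card_bot] at hc
    rcases IsSimpleGroup.eq_bot_or_eq_top_of_normal
      ((⊤ : Subgroup A5).prod (⊥ : Subgroup (Q m r))) inferInstance with h1 | h1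
    · rw [h1, Subgroup.card_bot] at hc; omega
    · rw [h1, Subgroup.card_top, Nat.card_prod, cardA5, cardQ] at hc
      have : 1 < 7 ^ (m + 3 + r) := Nat.one_lt_pow (by omega) (by norm_num)
      omega
  · rw [h]
    exact count (m + 3 + r) (r + 1) cardQ nonnormal_iff

theorem result :
    (∀ k : ℕ, 84 ≤ k → ∃ (G : Type) (_ : Group G) (_ : Finite G),
      ¬ Group.IsSolvable G ∧ ¬ IsSimpleGroup G ∧ ie G = k) ∧
    {k : ℕ | SolubleNum k}.Finite ∧ {k : ℕ | AbsSimpleNum k}.Finite := by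
  refine ⟨main, ?_, ?_⟩
  · refine (Set.finite_lt_nat 84).subset (fun k hk => ?_)
    by_contra hc
    obtain ⟨G, _, _, h1, -, h3⟩ := main k (not_lt.mp hc)
    exact h1 (hk.2 G h3)
  · refine (Set.finite_lt_nat 84).subset (fun k hk => ?_)
    by_contra hc
    exact hk.2.2 (main k (not_lt.mp hc))

end Pool.Agent.Results.MP_927db0_al.Finite
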